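import Pool.Agent.H420.Gr

/-!
# Stable marriage with ties and incomplete lists: man-optimal weakly stable matchings
-/

namespace Pool.Agent.H519_MO

open Pool.Agent.NPC

/-- A preference list: the acceptable agents of the other side, each with its rank.  A smaller rank
is better, equal ranks form a tie. -/
abbrev Pref : Type := List (ℕ × ℕ)

/-- An instance: the preference lists of the men `0, 1, ...` and those of the women `0, 1, ...`. -/
abbrev Inst : Type := List Pref × List Pref

/-- The preference list of the man `m`. -/
def prefM (I : Inst) (m : ℕ) : Pref := I.1.getD m []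

/-- The preference list of the woman `w`. -/
def prefW (I : Inst) (w : ℕ) : Pref := I.2.getD w []

/-- The instance is well formed: no preference list names an agent twice, and all agents named
exist. -/
def Valid (I : Inst) : Prop :=
  (∀ L ∈ I.1, (L.map Prod.fst).Nodup ∧ ∀ p ∈ L, p.1 < I.2.length) ∧
    (∀ L ∈ I.2, (L.map Prod.fst).Nodup ∧ ∀ p ∈ L, p.1 < I.1.length)

/-- The agent `a` is named in the preference list `L`. -/
def Lists (L : Pref) (a : ℕ) : Prop := ∃ r, (a, r) ∈ L

/-- The owner of the preference list `L` strictly prefers `a` to `b`. -/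
def Prefers (L : Pref) (a b : ℕ) : Prop := ∃ r s, (a, r) ∈ L ∧ (b, s) ∈ L ∧ r < s

/-- The pair of the man `m` and the woman `w` is acceptable: each finds the other acceptable. -/
def Acceptable (I : Inst) (m w : ℕ) : Prop := Lists (prefM I m) w ∧ Lists (prefW I w) m

/-- A matching: a set of acceptable pairs (man, woman) in which every agent appears at most once. -/
structure IsMatching (I : Inst) (M : Set (ℕ × ℕ)) : Prop where
  acc : ∀ {m w : ℕ}, (m, w) ∈ M → Acceptable I m w
  man : ∀ {m w w' : ℕ}, (m, w) ∈ M → (m, w') ∈ M → w = w'
  woman : ∀ {m m' w : ℕ}, (m, w) ∈ M → (m', w) ∈ M → m = m'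

/-- The acceptable pair `(m, w)` outside `M` blocks `M`: the man `m` is unmatched in `M` or strictly
prefers `w` to his partner, and the woman `w` is unmatched in `M` or strictly prefers `m` to her
partner. -/
def Blocks (I : Inst) (M : Set (ℕ × ℕ)) (m w : ℕ) : Prop :=
  Acceptable I m w ∧ (m, w) ∉ M ∧ (∀ w', (m, w') ∈ M → Prefers (prefM I m) w w') ∧
    (∀ m', (m', w) ∈ M → Prefers (prefW I w) m m')

/-- `M` is a weakly stable matching. -/
def WeaklyStable (I : Inst) (M : Set (ℕ × ℕ)) : Prop :=
  IsMatching I M ∧ ∀ m w, ¬ Blocks I M m w

/-- `M` is a man-optimal weakly stable matching: whenever a man `m` is matched to `w'` in some weakly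
stable matching, he is matched in `M`, to a woman `w` such that he does not strictly prefer `w'` to
`w`. -/
def ManOptimal (I : Inst) (M : Set (ℕ × ℕ)) : Prop :=
  WeaklyStable I M ∧ ∀ M', WeaklyStable I M' → ∀ m w', (m, w') ∈ M' →
    ∃ w, (m, w) ∈ M ∧ ¬ Prefers (prefM I m) w' w

/-- The function `S` solves the search problem: on every well formed instance its answer is a
man-optimal weakly stable matching, or `none` if there is no such matching. -/
def Solves (S : Inst → Option (List (ℕ × ℕ))) : Prop :=
  ∀ I, Valid I → (S I = none → ¬ ∃ M, ManOptimal I M) ∧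
    ∀ l, S I = some l → ManOptimal I {p | p ∈ l}

end Pool.Agent.H519_MO
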