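import Pool.Agent.H519_MO.Sat
import Pool.Agent.NPC.Classes

/-!
# The reduction is computable in polynomial time and produces well formed instances
-/

namespace Pool.Agent.H519_MO

open Pool.Agent.NPC Pool.Agent.H420.Gr

/-! ### Well formed instances -/

theorem nodup_manP {N K : ℕ} {var : ℕ → ℕ} {sgn : ℕ → Bool} (hN : N = 3 * K) (hK : 0 < K)
    (hvar : ∀ o < N, var o < N) {m : ℕ} (hm : m < 3 * N + 2) :
    ((manP N K var sgn m).map Prod.fst).Nodup ∧ ∀ p ∈ manP N K var sgn m, p.1 < 3 * N + 2 := by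
  unfold manP
  split_ifs with h1 h2 h3 h4 h5 h6 h7
  · have := hvar m h1
    simp
    omega
  · have := hvar m h1
    simp
    omega
  · have := hvar m h1
    simp
    omega
  · have := hvar m h1
    simp
    omega
  · simp
    omega
  · simp
    omega
  · simp
    omega
  · simp

theorem nodup_filter_map {N : ℕ} (p : ℕ → Bool) (r : ℕ) :
    ((((List.range N).filter p).map (fun o => (o, r))).map Prod.fst).Nodup := by
  have : (((List.range N).filter p).map (fun o => (o, r))).map Prod.fst =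
      (List.range N).filter p := by
    rw [List.map_map]
    exact List.map_id _
  rw [this]
  exact (List.nodup_range).filter _

theorem nodup_womanP {N K : ℕ} {var : ℕ → ℕ} {sgn : ℕ → Bool} (hN : N = 3 * K) (hK : 0 < K)
    {w : ℕ} (hw : w < 3 * N + 2) :
    ((womanP N var sgn w).map Prod.fst).Nodup ∧ ∀ p ∈ womanP N var sgn w, p.1 < 3 * N + 2 := by
  unfold womanP
  split_ifs with h1 h2 h3 h4 h5
  · simp
    omega
  · simp
    omega
  · refine ⟨?_, ?_⟩
    · rw [List.map_cons, List.map_cons, List.nodup_cons, List.nodup_cons]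
      refine ⟨?_, ?_, nodup_filter_map _ _⟩
      · simp
        omega
      · simp
    · intro p hp
      simp only [List.mem_cons, List.mem_map, List.mem_filter, List.mem_range] at hp
      rcases hp with rfl | rfl | ⟨o, ⟨ho, _⟩, rfl⟩
      · simp only; omega
      · simp only; omega
      · simp only; omega
  · refine ⟨?_, ?_⟩
    · rw [List.map_cons, List.map_cons, List.nodup_cons, List.nodup_cons]
      refine ⟨?_, ?_, nodup_filter_map _ _⟩
      · simp
        omega
      · simp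
        omega
    · intro p hp
      simp only [List.mem_cons, List.mem_map, List.mem_filter, List.mem_range] at hp
      rcases hp with rfl | rfl | ⟨o, ⟨ho, _⟩, rfl⟩
      · simp only; omega
      · simp only; omega
      · simp only; omega
  · simp
    omega
  · refine ⟨?_, ?_⟩
    · rw [List.map_cons, List.map_cons, List.nodup_cons, List.nodup_cons]
      refine ⟨?_, ?_, ?_⟩
      · simp
      · simp
      · rw [List.map_map]
        exact (List.map_id (List.range (3 * N))).symm ▸ List.nodup_range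
    · intro p hp
      simp only [List.mem_cons, List.mem_map, List.mem_range] at hp
      rcases hp with rfl | rfl | ⟨o, ho, rfl⟩
      · simp only; omega
      · simp only; omega
      · simp only; omega

theorem valid_inst {N K : ℕ} {var : ℕ → ℕ} {sgn : ℕ → Bool} (hN : N = 3 * K) (hK : 0 < K)
    (hvar : ∀ o < N, var o < N) : Valid (inst N K var sgn) := by
  constructor
  · intro L hL
    simp only [inst, List.mem_map, List.mem_range] at hL
    obtain ⟨m, hm, rfl⟩ := hL
    simpa [inst] using nodup_manP hN hK hvar hm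
  · intro L hL
    simp only [inst, List.mem_map, List.mem_range] at hL
    obtain ⟨w, hw, rfl⟩ := hL
    simpa [inst] using nodup_womanP (var := var) (sgn := sgn) hN hK hw

/-! ### The reduction -/

/-- The reduction. -/
def red (φ : List (Lit ℕ × Lit ℕ × Lit ℕ)) : Inst :=
  inst (3 * φ.length) φ.length (vr φ) (sg φ)

abbrev Fml : Type := List (Lit ℕ × Lit ℕ × Lit ℕ)

theorem poly_man : Poly (fun x : Fml × ℕ =>
    manP (3 * x.1.length) x.1.length (vr x.1) (sg x.1) x.2) := by
  have hφ : Poly (fun x : Fml × ℕ => x.1) := Poly.fst Poly.id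
  have hm : Poly (fun x : Fml × ℕ => x.2) := Poly.snd Poly.id
  have hK : Poly (fun x : Fml × ℕ => x.1.length) := NPC.Poly.length hφ
  have c : ∀ n : ℕ, Poly (fun _ : Fml × ℕ => n) := fun n => NPC.Poly.const n
  have hN : Poly (fun x : Fml × ℕ => 3 * x.1.length) := Poly.mul (c 3) hK
  have h2N : Poly (fun x : Fml × ℕ => 2 * (3 * x.1.length)) := Poly.mul (c 2) hN
  have h3N : Poly (fun x : Fml × ℕ => 3 * (3 * x.1.length)) := Poly.mul (c 3) hN
  have hd : Poly (fun x : Fml × ℕ => x.2 / 3) := Poly.div hm (c 3)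
  have h3d : Poly (fun x : Fml × ℕ => 3 * (x.2 / 3)) := Poly.mul (c 3) hd
  have nil : Poly (fun _ : Fml × ℕ => ([] : List (ℕ × ℕ))) := NPC.Poly.const _
  have hvw : Poly (fun x : Fml × ℕ => if sg x.1 x.2 = true then 3 * x.1.length + vr x.1 x.2
      else 2 * (3 * x.1.length) + vr x.1 x.2) :=
    NPC.Poly.ite (p := fun x : Fml × ℕ => sg x.1 x.2 = true)
      (Poly.decide_eq (poly_sg hφ hm) (NPC.Poly.const true))
      (Poly.add hN (poly_vr hφ hm)) (Poly.add h2N (poly_vr hφ hm))
  unfold manP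
  refine NPC.Poly.ite (Poly.decide_lt hm hN) ?_ (NPC.Poly.ite (Poly.decide_lt hm h2N) ?_
    (NPC.Poly.ite (Poly.decide_lt hm h3N) ?_ (NPC.Poly.ite (Poly.decide_eq hm h3N) ?_ ?_)))
  · refine Poly.cons (Poly.pair hm (c 0)) (Poly.cons (Poly.pair hvw (c 1))
      (NPC.Poly.append (NPC.Poly.ite (Poly.decide_lt (Poly.add hd (c 1)) hK) ?_ ?_) ?_))
    · exact Poly.cons (Poly.pair (Poly.add h3d (c 3)) (c 2)) (Poly.cons
        (Poly.pair (Poly.add h3d (c 4)) (c 2)) (Poly.cons
          (Poly.pair (Poly.add h3d (c 5)) (c 2)) nil))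
    · exact Poly.cons (Poly.pair h3N (c 2)) nil
    · exact Poly.cons (Poly.pair (Poly.add h3N (c 1)) (c 3)) nil
  · exact Poly.cons (Poly.pair hm (c 0)) (Poly.cons (Poly.pair (Poly.add hm hN) (c 0))
      (Poly.cons (Poly.pair (Poly.add h3N (c 1)) (c 1)) nil))
  · exact Poly.cons (Poly.pair (Poly.sub hm hN) (c 0)) (Poly.cons (Poly.pair hm (c 0))
      (Poly.cons (Poly.pair (Poly.add h3N (c 1)) (c 1)) nil))
  · exact Poly.cons (Poly.pair (Poly.add h3N (c 1)) (c 0)) (Poly.cons (Poly.pair (c 0) (c 1))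
      (Poly.cons (Poly.pair (c 1) (c 1)) (Poly.cons (Poly.pair (c 2) (c 1)) nil)))
  · exact Poly.cons (Poly.pair (Poly.add h3N (c 1)) (c 0)) nil

theorem poly_woman : Poly (fun x : Fml × ℕ =>
    womanP (3 * x.1.length) (vr x.1) (sg x.1) x.2) := by
  have hφ : Poly (fun x : Fml × ℕ => x.1) := Poly.fst Poly.id
  have hw : Poly (fun x : Fml × ℕ => x.2) := Poly.snd Poly.id
  have hK : UPoly (fun x : Fml × ℕ => x.1.length) := UPoly.length hφ
  have hNu : UPoly (fun x : Fml × ℕ => 3 * x.1.length) := UPoly.mul (UPoly.const 3) hK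
  have h3Nu : UPoly (fun x : Fml × ℕ => 3 * (3 * x.1.length)) := UPoly.mul (UPoly.const 3) hNu
  have c : ∀ n : ℕ, Poly (fun _ : Fml × ℕ => n) := fun n => NPC.Poly.const n
  have hN : Poly (fun x : Fml × ℕ => 3 * x.1.length) := hNu.toPoly
  have h2N : Poly (fun x : Fml × ℕ => 2 * (3 * x.1.length)) := Poly.mul (c 2) hN
  have h3N : Poly (fun x : Fml × ℕ => 3 * (3 * x.1.length)) := h3Nu.toPoly
  have h3d : Poly (fun x : Fml × ℕ => 3 * (x.2 / 3)) := Poly.mul (c 3) (Poly.div hw (c 3))
  have nil : Poly (fun _ : Fml × ℕ => ([] : List (ℕ × ℕ))) := NPC.Poly.const _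
  have hφ2 : Poly (fun y : (Fml × ℕ) × ℕ => y.1.1) := Poly.fst (Poly.fst Poly.id)
  have ho2 : Poly (fun y : (Fml × ℕ) × ℕ => y.2) := Poly.snd Poly.id
  have hw2 : Poly (fun y : (Fml × ℕ) × ℕ => y.1.2) := Poly.snd (Poly.fst Poly.id)
  have hN2 : Poly (fun y : (Fml × ℕ) × ℕ => 3 * y.1.1.length) := hN.comp (Poly.fst Poly.id)
  have h2N2 : Poly (fun y : (Fml × ℕ) × ℕ => 2 * (3 * y.1.1.length)) :=
    h2N.comp (Poly.fst Poly.id)
  unfold womanP
  refine NPC.Poly.ite (Poly.decide_lt hw hN) ?_ (NPC.Poly.ite (Poly.decide_lt hw h2N) ?_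
    (NPC.Poly.ite (Poly.decide_lt hw h3N) ?_ (NPC.Poly.ite (Poly.decide_eq hw h3N) ?_ ?_)))
  · refine Poly.cons (Poly.pair hw (c 1)) (NPC.Poly.ite
      (Poly.decide_eq (Poly.div hw (c 3)) (c 0)) ?_ ?_)
    · exact Poly.cons (Poly.pair h3N (c 0)) nil
    · exact Poly.cons (Poly.pair (Poly.sub h3d (c 3)) (c 0)) (Poly.cons
        (Poly.pair (Poly.sub h3d (c 2)) (c 0)) (Poly.cons
          (Poly.pair (Poly.sub h3d (c 1)) (c 0)) nil))
  · refine Poly.cons (Poly.pair hw (c 0)) (Poly.cons (Poly.pair (Poly.add hw hN) (c 2))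
      (NPC.Poly.map (F := fun _ o => (o, 1)) (NPC.Poly.filter
        (p := fun (x : Fml × ℕ) o => decide (vr x.1 o = x.2 - 3 * x.1.length) && sg x.1 o)
        hNu.range ?_) (Poly.pair (Poly.snd Poly.id) (NPC.Poly.const 1))))
    exact NPC.Poly.and (Poly.decide_eq (poly_vr hφ2 ho2) (Poly.sub hw2 hN2)) (poly_sg hφ2 ho2)
  · refine Poly.cons (Poly.pair (Poly.sub hw hN) (c 0)) (Poly.cons (Poly.pair hw (c 2))
      (NPC.Poly.map (F := fun _ o => (o, 1)) (NPC.Poly.filter
        (p := fun (x : Fml × ℕ) o => decide (vr x.1 o = x.2 - 2 * (3 * x.1.length)) &&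
          !(sg x.1 o)) hNu.range ?_) (Poly.pair (Poly.snd Poly.id) (NPC.Poly.const 1))))
    exact NPC.Poly.and (Poly.decide_eq (poly_vr hφ2 ho2) (Poly.sub hw2 h2N2))
      (NPC.Poly.not (poly_sg hφ2 ho2))
  · exact Poly.cons (Poly.pair (Poly.sub hN (c 3)) (c 0)) (Poly.cons
      (Poly.pair (Poly.sub hN (c 2)) (c 0)) (Poly.cons
        (Poly.pair (Poly.sub hN (c 1)) (c 0)) nil))
  · exact Poly.cons (Poly.pair h3N (c 1)) (Poly.cons (Poly.pair (Poly.add h3N (c 1)) (c 1))
      (NPC.Poly.map (F := fun _ o => (o, 0)) h3Nu.range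
        (Poly.pair (Poly.snd Poly.id) (NPC.Poly.const 0))))

theorem red_poly : Poly red := by
  have hK : UPoly (fun φ : Fml => φ.length) := UPoly.length Poly.id
  have hN : UPoly (fun φ : Fml => 3 * (3 * φ.length) + 2) :=
    UPoly.add (UPoly.mul (UPoly.const 3) (UPoly.mul (UPoly.const 3) hK)) (UPoly.const 2)
  unfold red inst
  exact Poly.pair (NPC.Poly.map (F := fun (φ : Fml) m =>
      manP (3 * φ.length) φ.length (vr φ) (sg φ) m) hN.range poly_man)
    (NPC.Poly.map (F := fun (φ : Fml) w =>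
      womanP (3 * φ.length) (vr φ) (sg φ) w) hN.range poly_woman)

theorem hardPr_manOptimal : HardPr Valid (fun I => ¬ ∃ M, ManOptimal I M) := by
  refine HardPr.trans hardPr_SAT3b red_poly ?_ ?_
  · rintro φ ⟨-, hb, hne⟩
    exact valid_inst rfl (List.length_pos_iff.2 hne) (fun o ho => vr_lt hb ho)
  · rintro φ ⟨-, hb, hne⟩
    unfold red
    rw [manOptimal_iff rfl (List.length_pos_iff.2 hne) (fun o ho => vr_lt hb ho), not_not, sat_iff]

/-- One call of any solver of the search problem decides any given language in `NP`. -/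
theorem search_hard {L : Set (List Bool)} (hL : InNP L) :
    ∃ f : List Bool → Inst, PolyTime (fun x => bits (f x)) ∧ (∀ x, Valid (f x)) ∧
      (∀ x, x ∈ L ↔ ¬ ∃ M, ManOptimal (f x) M) ∧
      ∀ S, Solves S → ∀ x, x ∈ L ↔ S (f x) = none := by
  obtain ⟨f, hf, hv, hx⟩ := hardPr_manOptimal L hL
  refine ⟨f, PC.toPolyTime hf, hv, hx, fun S hS x => ?_⟩
  rw [hx x]
  obtain ⟨h1, h2⟩ := hS (f x) (hv x)
  constructor
  · intro h
    cases hs : S (f x) with
    | none => rfl
    | some l => exact absurd ⟨_, h2 l hs⟩ h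
  · exact h1

theorem coNPHard : CoNPHardP (fun I => Valid I ∧ ∃ M, ManOptimal I M) := by
  intro L hL
  obtain ⟨f, hf, hv, hx, _⟩ := search_hard hL
  refine ⟨fun x => bits (f x), hf, fun x => ?_⟩
  rw [bits_mem_lang]
  have := hx x
  rw [Set.mem_compl_iff] at this
  constructor
  · intro h
    exact ⟨hv x, by_contra fun h' => (this.2 h') h⟩
  · rintro ⟨_, h⟩
    by_contra h'
    exact this.1 h' h

/-- If the search problem is solvable in polynomial time then `P = NP`. -/
theorem collapse {S : Inst → Option (List (ℕ × ℕ))} (hS : Solves S) {F : List Bool → List Bool}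
    (hF : PolyTime F) (hFS : ∀ I, Valid I → F (bits I) = bits (S I)) :
    ∀ L, InNP L → InP L := by
  intro L hL
  obtain ⟨f, hf, hv, _, hx⟩ := search_hard hL
  refine InP.of_reduces (L' := {y | F y = bits (none : Option (List (ℕ × ℕ)))})
    ⟨fun x => bits (f x), hf, fun x => ?_⟩ ⟨_, polyTime_test
      (g := fun y => decide (y = bits (none : Option (List (ℕ × ℕ))))) hF
      (Poly.decide_eq Poly.id (NPC.Poly.const _)), fun y => ?_⟩
  · rw [hx S hS x, Set.mem_ofPred_eq, hFS _ (hv x)]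
    exact ⟨fun h => by rw [h], fun h => bits_injective h⟩
  · simp

end Pool.Agent.H519_MO
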