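import Pool.Agent.H519_MO.Red

/-!
# Correctness of the reduction
-/

namespace Pool.Agent.H519_MO

open Pool.Agent.NPC

variable {N K : ℕ} {var : ℕ → ℕ} {sgn : ℕ → Bool}

theorem lists_star {m : ℕ} (hm : m < 3 * N) :
    Lists (prefM (inst N K var sgn) m) (3 * N + 1) := by
  by_cases h1 : m < N
  · exact ⟨3, (mE h1).2 (Or.inr (Or.inr (Or.inr ⟨rfl, rfl⟩)))⟩
  · by_cases h2 : m < 2 * N
    · exact ⟨1, (mY (by omega) h2).2 (Or.inr (Or.inr ⟨rfl, rfl⟩))⟩
    · exact ⟨1, (mQ (by omega) hm).2 (Or.inr (Or.inr ⟨rfl, rfl⟩))⟩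

/-- If the man `3 N + 1` is matched to the woman `3 N + 1`, all men below `3 N` are matched. -/
theorem matched {M : Set (ℕ × ℕ)} (hM : WeaklyStable (inst N K var sgn) M)
    (hs : (3 * N + 1, 3 * N + 1) ∈ M) {m : ℕ} (hm : m < 3 * N) :
    ∃ w, (m, w) ∈ M ∧ w ≠ 3 * N + 1 := by
  by_contra hcon
  push Not at hcon
  have hno : ∀ w, (m, w) ∉ M := by
    intro w hw
    have h1 := hcon w hw
    subst h1
    have := hM.1.woman hw hs
    omega
  refine hM.2 m (3 * N + 1) ⟨⟨lists_star hm, ⟨0, wS.2 (Or.inr (Or.inr ⟨hm, rfl⟩))⟩⟩, hno _,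
    fun w' hw' => absurd hw' (hno w'), fun m' hm' => ?_⟩
  have h1 := hM.1.woman hm' hs
  subst h1
  exact ⟨0, 1, wS.2 (Or.inr (Or.inr ⟨hm, rfl⟩)), wS.2 (Or.inr (Or.inl ⟨rfl, rfl⟩)), by omega⟩

/-- The two men of a variable are matched to its two women. -/
theorem states {M : Set (ℕ × ℕ)} (hM : WeaklyStable (inst N K var sgn) M)
    (hs : (3 * N + 1, 3 * N + 1) ∈ M) {x : ℕ} (hx : x < N) :
    ((N + x, N + x) ∈ M ∧ (2 * N + x, 2 * N + x) ∈ M) ∨
      ((N + x, N + x) ∉ M ∧ (N + x, 2 * N + x) ∈ M ∧ (2 * N + x, N + x) ∈ M) := by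
  obtain ⟨w, hw, hw'⟩ := matched hM hs (m := N + x) (by omega)
  obtain ⟨u, hu, hu'⟩ := matched hM hs (m := 2 * N + x) (by omega)
  obtain ⟨r, hr⟩ := (hM.1.acc hw).1
  obtain ⟨s, hs'⟩ := (hM.1.acc hu).1
  rw [mY (by omega) (by omega)] at hr
  rw [mQ (by omega) (by omega)] at hs'
  have e1 : w = N + x ∨ w = 2 * N + x := by omega
  have e2 : u = N + x ∨ u = 2 * N + x := by omega
  have hne : w ≠ u := by
    rintro rfl
    have := hM.1.woman hw hu
    omega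
  rcases e1 with rfl | rfl
  · have : u = 2 * N + x := by omega
    subst this
    exact Or.inl ⟨hw, hu⟩
  · have : u = N + x := by omega
    subst this
    refine Or.inr ⟨fun h => ?_, hw, hu⟩
    have := hM.1.man h hw
    omega

theorem vw_taken {M : Set (ℕ × ℕ)} (hM : WeaklyStable (inst N K var sgn) M)
    (hs : (3 * N + 1, 3 * N + 1) ∈ M) (hvar : ∀ o < N, var o < N) {o : ℕ} (ho : o < N) :
    (o, vw N var sgn o) ∉ M := by
  intro h
  have hx := hvar o ho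
  have key : ∃ m, N ≤ m ∧ (m, vw N var sgn o) ∈ M := by
    unfold vw
    rcases states hM hs hx with ⟨h1, h2⟩ | ⟨_, h1, h2⟩
    · split_ifs
      · exact ⟨_, by omega, h1⟩
      · exact ⟨_, by omega, h2⟩
    · split_ifs
      · exact ⟨2 * N + var o, by omega, h2⟩
      · exact ⟨_, by omega, h1⟩
  obtain ⟨m, hm, hm'⟩ := key
  have := hM.1.woman h hm'
  omega

/-- A displaced literal man is matched to a woman after him. -/
theorem displaced {M : Set (ℕ × ℕ)} (hM : WeaklyStable (inst N K var sgn) M)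
    (hs : (3 * N + 1, 3 * N + 1) ∈ M) (hvar : ∀ o < N, var o < N) {o m : ℕ} (ho : o < N)
    (hm : (m, o) ∈ M) (hmo : m ≠ o) : ∃ w, (o, w) ∈ M ∧ Next N K o w := by
  obtain ⟨w, hw, hw'⟩ := matched hM hs (m := o) (by omega)
  refine ⟨w, hw, ?_⟩
  obtain ⟨r, hr⟩ := (hM.1.acc hw).1
  rw [mE ho] at hr
  rcases hr with ⟨rfl, _⟩ | ⟨rfl, _⟩ | ⟨h, _⟩ | ⟨h, _⟩
  · exact absurd (hM.1.woman hm hw) hmo
  · exact absurd hw (vw_taken hM hs hvar ho)
  · exact h
  · exact absurd h hw'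

theorem chain {M : Set (ℕ × ℕ)} (hM : WeaklyStable (inst N K var sgn) M)
    (hs : (3 * N + 1, 3 * N + 1) ∈ M) (hvar : ∀ o < N, var o < N) (hN : N = 3 * K) :
    ∀ j < K, ∃ o, o / 3 = j ∧ ∃ w, (o, w) ∈ M ∧ Next N K o w := by
  intro j
  induction j with
  | zero =>
    intro hj
    have key : ∃ w < 3, (3 * N, w) ∈ M := by
      by_contra hcon
      push Not at hcon
      refine hM.2 (3 * N) 0 ⟨⟨⟨1, mA.2 (Or.inr ⟨by omega, rfl⟩)⟩,
        ⟨0, (wE (by omega)).2 (Or.inr (Or.inl ⟨rfl, rfl, rfl⟩))⟩⟩, hcon 0 (by omega), ?_, ?_⟩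
      · intro w' hw'
        obtain ⟨r, hr⟩ := (hM.1.acc hw').1
        rw [mA] at hr
        rcases hr with ⟨rfl, _⟩ | ⟨h, _⟩
        · have := hM.1.woman hw' hs
          omega
        · exact absurd hw' (hcon _ h)
      · intro m' hm'
        obtain ⟨r, hr⟩ := (hM.1.acc hm').2
        have hr' := hr
        rw [wE (by omega)] at hr
        rcases hr with ⟨h1, h2⟩ | ⟨_, rfl, _⟩ | ⟨h, _⟩
        · exact ⟨0, r, (wE (by omega)).2 (Or.inr (Or.inl ⟨rfl, rfl, rfl⟩)), hr', by omega⟩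
        · exact absurd hm' (hcon 0 (by omega))
        · omega
    obtain ⟨o, ho, ho'⟩ := key
    obtain ⟨w, hw⟩ := displaced hM hs hvar (o := o) (m := 3 * N) (by omega) ho' (by omega)
    exact ⟨o, by omega, w, hw⟩
  | succ j ih =>
    intro hj
    obtain ⟨o, ho, w, hw, hn⟩ := ih (by omega)
    rcases hn with ⟨h1, h2⟩ | ⟨h1, h2⟩
    · obtain ⟨u, hu⟩ := displaced hM hs hvar (o := w) (m := o) (by omega) hw (by
        rintro rfl
        omega)
      exact ⟨w, by omega, u, hu⟩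
    · omega

theorem sat_of {M : Set (ℕ × ℕ)} (hM : WeaklyStable (inst N K var sgn) M)
    (hs : (3 * N + 1, 3 * N + 1) ∈ M) (hvar : ∀ o < N, var o < N) (hN : N = 3 * K) :
    ∃ τ : ℕ → Bool, ∀ j < K, ∃ r < 3, τ (var (3 * j + r)) = sgn (3 * j + r) := by
  classical
  refine ⟨fun x => decide ((N + x, N + x) ∈ M), fun j hj => ?_⟩
  obtain ⟨o, ho, w, hw, hn⟩ := chain hM hs hvar hN j hj
  refine ⟨o % 3, Nat.mod_lt _ (by omega), ?_⟩
  have e : 3 * j + o % 3 = o := by omega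
  rw [e]
  have hoN : o < N := by omega
  have hx := hvar o hoN
  cases hsg : sgn o with
  | true =>
    rw [decide_eq_true_iff]
    by_contra hcon
    rcases states hM hs hx with ⟨h1, h2⟩ | ⟨_, h1, h2⟩
    · exact hcon h1
    · have hv : vw N var sgn o = N + var o := by simp [vw, hsg]
      refine hM.2 o (N + var o) ⟨⟨⟨1, (mE hoN).2 (Or.inr (Or.inl ⟨hv.symm, rfl⟩))⟩,
        ⟨1, (wA (by omega) (by omega)).2 (Or.inr (Or.inr ⟨hoN, by omega, hsg, rfl⟩))⟩⟩, ?_, ?_, ?_⟩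
      · intro h
        have := hM.1.woman h h2
        omega
      · intro w' hw'
        have := hM.1.man hw hw'
        subst this
        exact ⟨1, 2, (mE hoN).2 (Or.inr (Or.inl ⟨hv.symm, rfl⟩)),
          (mE hoN).2 (Or.inr (Or.inr (Or.inl ⟨hn, rfl⟩))), by omega⟩
      · intro m' hm'
        have := hM.1.woman h2 hm'
        subst this
        exact ⟨1, 2, (wA (by omega) (by omega)).2 (Or.inr (Or.inr ⟨hoN, by omega, hsg, rfl⟩)),
          (wA (by omega) (by omega)).2 (Or.inr (Or.inl ⟨by omega, rfl⟩)), by omega⟩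
  | false =>
    rw [decide_eq_false_iff_not]
    intro hcon
    rcases states hM hs hx with ⟨h1, h2⟩ | ⟨h0, h1, h2⟩
    · have hv : vw N var sgn o = 2 * N + var o := by simp [vw, hsg]
      refine hM.2 o (2 * N + var o) ⟨⟨⟨1, (mE hoN).2 (Or.inr (Or.inl ⟨hv.symm, rfl⟩))⟩,
        ⟨1, (wB (by omega) (by omega)).2 (Or.inr (Or.inr ⟨hoN, by omega, hsg, rfl⟩))⟩⟩, ?_, ?_, ?_⟩
      · intro h
        have := hM.1.woman h h2
        omega
      · intro w' hw'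
        have := hM.1.man hw hw'
        subst this
        exact ⟨1, 2, (mE hoN).2 (Or.inr (Or.inl ⟨hv.symm, rfl⟩)),
          (mE hoN).2 (Or.inr (Or.inr (Or.inl ⟨hn, rfl⟩))), by omega⟩
      · intro m' hm'
        have := hM.1.woman h2 hm'
        subst this
        exact ⟨1, 2, (wB (by omega) (by omega)).2 (Or.inr (Or.inr ⟨hoN, by omega, hsg, rfl⟩)),
          (wB (by omega) (by omega)).2 (Or.inr (Or.inl ⟨rfl, rfl⟩)), by omega⟩
    · exact h0 hcon

/-! ### The matching `M0` -/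

/-- Every man is matched to his best woman, except the man `3 N + 1`, who is unmatched. -/
def M0 (N : ℕ) : Set (ℕ × ℕ) := {p | (p.1 < 3 * N ∧ p.2 = p.1) ∨ (p.1 = 3 * N ∧ p.2 = 3 * N + 1)}

theorem mem_M0 {m w : ℕ} : (m, w) ∈ M0 N ↔ (m < 3 * N ∧ w = m) ∨ (m = 3 * N ∧ w = 3 * N + 1) :=
  Iff.rfl

theorem top_self {m s : ℕ} (hN : N = 3 * K) (hm : m < 3 * N)
    (h : (m, s) ∈ prefM (inst N K var sgn) m) : s = 0 := by
  by_cases h1 : m < N
  · rw [mE h1] at h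
    rcases h with ⟨_, h⟩ | ⟨h, _⟩ | ⟨h, _⟩ | ⟨h, _⟩
    · exact h
    · unfold vw at h
      split_ifs at h <;> omega
    · unfold Next at h
      omega
    · omega
  · by_cases h2 : m < 2 * N
    · rw [mY (by omega) h2] at h
      omega
    · rw [mQ (by omega) hm] at h
      omega

theorem acc_self {m : ℕ} (hm : m < 3 * N) : Acceptable (inst N K var sgn) m m := by
  by_cases h1 : m < N
  · exact ⟨⟨0, (mE h1).2 (Or.inl ⟨rfl, rfl⟩)⟩, ⟨1, (wE h1).2 (Or.inl ⟨rfl, rfl⟩)⟩⟩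
  · by_cases h2 : m < 2 * N
    · exact ⟨⟨0, (mY (by omega) h2).2 (Or.inl ⟨rfl, rfl⟩)⟩,
        ⟨0, (wA (by omega) h2).2 (Or.inl ⟨rfl, rfl⟩)⟩⟩
    · exact ⟨⟨0, (mQ (by omega) hm).2 (Or.inr (Or.inl ⟨rfl, rfl⟩))⟩,
        ⟨2, (wB (by omega) hm).2 (Or.inr (Or.inl ⟨rfl, rfl⟩))⟩⟩

theorem man_lt {m w : ℕ} (h : Lists (prefM (inst N K var sgn) m) w) : m < 3 * N + 2 := by
  by_contra hcon
  obtain ⟨r, hr⟩ := h
  rw [prefM_out hcon] at hr
  simp at hr

theorem weaklyStable_M0 (hN : N = 3 * K) (hK : 0 < K) : WeaklyStable (inst N K var sgn) (M0 N) := by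
  refine ⟨⟨?_, ?_, ?_⟩, ?_⟩
  · intro m w h
    rw [mem_M0] at h
    rcases h with ⟨h1, rfl⟩ | ⟨rfl, rfl⟩
    · exact acc_self h1
    · exact ⟨⟨0, mA.2 (Or.inl ⟨rfl, rfl⟩)⟩, ⟨1, wS.2 (Or.inl ⟨rfl, rfl⟩)⟩⟩
  · intro m w w' h h'
    rw [mem_M0] at h h'
    omega
  · intro m m' w h h'
    rw [mem_M0] at h h'
    omega
  · rintro m w ⟨hacc, _, h1, h2⟩
    have hm := man_lt hacc.1
    by_cases hm3 : m < 3 * N
    · obtain ⟨r, s, _, hs, hrs⟩ := h1 m (mem_M0.2 (Or.inl ⟨hm3, rfl⟩))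
      have := top_self hN hm3 hs
      omega
    · by_cases hm4 : m = 3 * N
      · subst hm4
        obtain ⟨r, s, _, hs, hrs⟩ := h1 (3 * N + 1) (mem_M0.2 (Or.inr ⟨rfl, rfl⟩))
        rw [mA] at hs
        omega
      · have : m = 3 * N + 1 := by omega
        subst this
        obtain ⟨r, hr⟩ := hacc.1
        rw [mB] at hr
        obtain ⟨rfl, _⟩ := hr
        obtain ⟨r, s, hr, hs, hrs⟩ := h2 (3 * N) (mem_M0.2 (Or.inr ⟨rfl, rfl⟩))
        rw [wS] at hr hs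
        omega

end Pool.Agent.H519_MO
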