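import Pool.Agent.H519_MO.Defs

/-!
# The reduction from 3SAT

The formula has `K` clauses and `N = 3 K` literals (numbered by clause); `var o < N` and `sgn o` are
the variable and the sign of literal `o`.

Men: `o` (`o < N`) for the literals, `N + x` and `2 N + x` for the variables, `3 N` and `3 N + 1`.
Women: `o` for the literals, `N + x` and `2 N + x` for the variables, `3 N` and `3 N + 1`.
-/

namespace Pool.Agent.H519_MO

open Pool.Agent.NPC

/-- Preference list of the man `m`. -/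
def manP (N K : ℕ) (var : ℕ → ℕ) (sgn : ℕ → Bool) (m : ℕ) : Pref :=
  if m < N then
    (m, 0) :: ((if sgn m = true then N + var m else 2 * N + var m), 1) ::
      ((if m / 3 + 1 < K then [(3 * (m / 3) + 3, 2), (3 * (m / 3) + 4, 2), (3 * (m / 3) + 5, 2)]
        else [(3 * N, 2)]) ++ [(3 * N + 1, 3)])
  else if m < 2 * N then [(m, 0), (m + N, 0), (3 * N + 1, 1)]
  else if m < 3 * N then [(m - N, 0), (m, 0), (3 * N + 1, 1)]
  else if m = 3 * N then [(3 * N + 1, 0), (0, 1), (1, 1), (2, 1)]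
  else [(3 * N + 1, 0)]

/-- Preference list of the woman `w`. -/
def womanP (N : ℕ) (var : ℕ → ℕ) (sgn : ℕ → Bool) (w : ℕ) : Pref :=
  if w < N then
    (w, 1) :: (if w / 3 = 0 then [(3 * N, 0)]
      else [(3 * (w / 3) - 3, 0), (3 * (w / 3) - 2, 0), (3 * (w / 3) - 1, 0)])
  else if w < 2 * N then
    (w, 0) :: (w + N, 2) :: ((List.range N).filter
      (fun o => decide (var o = w - N) && sgn o)).map (fun o => (o, 1))
  else if w < 3 * N then
    (w - N, 0) :: (w, 2) :: ((List.range N).filter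
      (fun o => decide (var o = w - 2 * N) && !(sgn o))).map (fun o => (o, 1))
  else if w = 3 * N then [(N - 3, 0), (N - 2, 0), (N - 1, 0)]
  else (3 * N, 1) :: (3 * N + 1, 1) :: (List.range (3 * N)).map (fun m => (m, 0))

/-- The instance. -/
def inst (N K : ℕ) (var : ℕ → ℕ) (sgn : ℕ → Bool) : Inst :=
  ((List.range (3 * N + 2)).map (manP N K var sgn), (List.range (3 * N + 2)).map (womanP N var sgn))

/-- The woman `w` comes after the man `m < N`: she belongs to the next clause, or is the woman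
`3 N` if there is no next clause. -/
def Next (N K : ℕ) (m w : ℕ) : Prop :=
  (m / 3 + 1 < K ∧ w / 3 = m / 3 + 1) ∨ (K ≤ m / 3 + 1 ∧ w = 3 * N)

/-- The variable woman of the literal man `m < N`. -/
def vw (N : ℕ) (var : ℕ → ℕ) (sgn : ℕ → Bool) (m : ℕ) : ℕ :=
  if sgn m = true then N + var m else 2 * N + var m

variable {N K : ℕ} {var : ℕ → ℕ} {sgn : ℕ → Bool}

theorem getD_map_range {α : Type} (f : ℕ → List α) (n i : ℕ) :
    ((List.range n).map f).getD i [] = if i < n then f i else [] := by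
  split_ifs with h
  · simp [List.getD_eq_getElem?_getD, h]
  · simp [List.getD_eq_getElem?_getD, h]

theorem prefM_eq {m : ℕ} (h : m < 3 * N + 2) :
    prefM (inst N K var sgn) m = manP N K var sgn m := by
  unfold prefM inst
  simp only [getD_map_range]
  rw [if_pos h]

theorem prefM_out {m : ℕ} (h : ¬ m < 3 * N + 2) : prefM (inst N K var sgn) m = [] := by
  unfold prefM inst
  simp only [getD_map_range]
  rw [if_neg h]

theorem prefW_eq {w : ℕ} (h : w < 3 * N + 2) :
    prefW (inst N K var sgn) w = womanP N var sgn w := by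
  unfold prefW inst
  simp only [getD_map_range]
  rw [if_pos h]

/-! ### The men -/

theorem mE {m w r : ℕ} (hm : m < N) : (w, r) ∈ prefM (inst N K var sgn) m ↔
    (w = m ∧ r = 0) ∨ (w = vw N var sgn m ∧ r = 1) ∨ (Next N K m w ∧ r = 2) ∨
      (w = 3 * N + 1 ∧ r = 3) := by
  rw [prefM_eq (by omega)]
  unfold manP
  rw [if_pos hm]
  by_cases hk : m / 3 + 1 < K
  · rw [if_pos hk]
    have e : Next N K m w ↔ w = 3 * (m / 3) + 3 ∨ w = 3 * (m / 3) + 4 ∨ w = 3 * (m / 3) + 5 := by
      unfold Next; omega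
    simp only [List.mem_cons, Prod.mk.injEq, List.cons_append, List.nil_append, List.not_mem_nil,
      or_false, e]
    unfold vw
    tauto
  · rw [if_neg hk]
    have e : Next N K m w ↔ w = 3 * N := by
      unfold Next; omega
    simp only [List.mem_cons, Prod.mk.injEq, List.cons_append, List.nil_append, List.not_mem_nil,
      or_false, e]
    unfold vw
    tauto

theorem mY {m w r : ℕ} (h1 : N ≤ m) (h2 : m < 2 * N) : (w, r) ∈ prefM (inst N K var sgn) m ↔
    (w = m ∧ r = 0) ∨ (w = m + N ∧ r = 0) ∨ (w = 3 * N + 1 ∧ r = 1) := by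
  rw [prefM_eq (by omega)]
  unfold manP
  rw [if_neg (by omega), if_pos h2]
  simp only [List.mem_cons, Prod.mk.injEq, List.not_mem_nil, or_false]

theorem mQ {m w r : ℕ} (h1 : 2 * N ≤ m) (h2 : m < 3 * N) :
    (w, r) ∈ prefM (inst N K var sgn) m ↔
    (w = m - N ∧ r = 0) ∨ (w = m ∧ r = 0) ∨ (w = 3 * N + 1 ∧ r = 1) := by
  rw [prefM_eq (by omega)]
  unfold manP
  rw [if_neg (by omega), if_neg (by omega), if_pos h2]
  simp only [List.mem_cons, Prod.mk.injEq, List.not_mem_nil, or_false]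

theorem mA {w r : ℕ} : (w, r) ∈ prefM (inst N K var sgn) (3 * N) ↔
    (w = 3 * N + 1 ∧ r = 0) ∨ (w < 3 ∧ r = 1) := by
  rw [prefM_eq (by omega)]
  unfold manP
  rw [if_neg (by omega), if_neg (by omega), if_neg (by omega), if_pos rfl]
  simp only [List.mem_cons, Prod.mk.injEq, List.not_mem_nil, or_false]
  have e : w < 3 ↔ w = 0 ∨ w = 1 ∨ w = 2 := by omega
  rw [e]
  tauto

theorem mB {w r : ℕ} : (w, r) ∈ prefM (inst N K var sgn) (3 * N + 1) ↔
    w = 3 * N + 1 ∧ r = 0 := by
  rw [prefM_eq (by omega)]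
  unfold manP
  rw [if_neg (by omega), if_neg (by omega), if_neg (by omega), if_neg (by omega)]
  simp only [List.mem_cons, Prod.mk.injEq, List.not_mem_nil, or_false]

/-! ### The women -/

theorem wE {m w r : ℕ} (hw : w < N) : (m, r) ∈ prefW (inst N K var sgn) w ↔
    (m = w ∧ r = 1) ∨ (w / 3 = 0 ∧ m = 3 * N ∧ r = 0) ∨ (m / 3 + 1 = w / 3 ∧ r = 0) := by
  rw [prefW_eq (by omega)]
  unfold womanP
  rw [if_pos hw]
  by_cases h0 : w / 3 = 0
  · rw [if_pos h0]
    simp only [List.mem_cons, Prod.mk.injEq, List.not_mem_nil, or_false, h0, true_and]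
    constructor
    · rintro (h | h)
      · exact Or.inl h
      · exact Or.inr (Or.inl h)
    · rintro (h | h | h)
      · exact Or.inl h
      · exact Or.inr h
      · omega
  · rw [if_neg h0]
    have e : m / 3 + 1 = w / 3 ↔
        m = 3 * (w / 3) - 3 ∨ m = 3 * (w / 3) - 2 ∨ m = 3 * (w / 3) - 1 := by omega
    simp only [List.mem_cons, Prod.mk.injEq, List.not_mem_nil, or_false, h0, false_and, false_or, e]
    tauto

theorem wA {m w r : ℕ} (h1 : N ≤ w) (h2 : w < 2 * N) : (m, r) ∈ prefW (inst N K var sgn) w ↔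
    (m = w ∧ r = 0) ∨ (m = w + N ∧ r = 2) ∨ (m < N ∧ var m = w - N ∧ sgn m = true ∧ r = 1) := by
  rw [prefW_eq (by omega)]
  unfold womanP
  rw [if_neg (by omega), if_pos h2]
  simp only [List.mem_cons, Prod.mk.injEq, List.mem_map, List.mem_filter, List.mem_range,
        Bool.and_eq_true, decide_eq_true_eq]
  constructor
  · rintro (h | h | ⟨o, ⟨h1, h2, h3⟩, rfl, rfl⟩)
    · exact Or.inl h
    · exact Or.inr (Or.inl h)
    · exact Or.inr (Or.inr ⟨h1, h2, h3, rfl⟩)
  · rintro (h | h | ⟨h1, h2, h3, rfl⟩)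
    · exact Or.inl h
    · exact Or.inr (Or.inl h)
    · exact Or.inr (Or.inr ⟨m, ⟨h1, h2, h3⟩, rfl, rfl⟩)

theorem wB {m w r : ℕ} (h1 : 2 * N ≤ w) (h2 : w < 3 * N) :
    (m, r) ∈ prefW (inst N K var sgn) w ↔
    (m = w - N ∧ r = 0) ∨ (m = w ∧ r = 2) ∨
      (m < N ∧ var m = w - 2 * N ∧ sgn m = false ∧ r = 1) := by
  rw [prefW_eq (by omega)]
  unfold womanP
  rw [if_neg (by omega), if_neg (by omega), if_pos h2]
  simp only [List.mem_cons, Prod.mk.injEq, List.mem_map, List.mem_filter, List.mem_range,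
        Bool.and_eq_true, decide_eq_true_eq, Bool.not_eq_true']
  constructor
  · rintro (h | h | ⟨o, ⟨h1, h2, h3⟩, rfl, rfl⟩)
    · exact Or.inl h
    · exact Or.inr (Or.inl h)
    · exact Or.inr (Or.inr ⟨h1, h2, h3, rfl⟩)
  · rintro (h | h | ⟨h1, h2, h3, rfl⟩)
    · exact Or.inl h
    · exact Or.inr (Or.inl h)
    · exact Or.inr (Or.inr ⟨m, ⟨h1, h2, h3⟩, rfl, rfl⟩)

theorem wZ {m r : ℕ} (hN : 3 ≤ N) : (m, r) ∈ prefW (inst N K var sgn) (3 * N) ↔
    m < N ∧ N ≤ m + 3 ∧ r = 0 := by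
  rw [prefW_eq (by omega)]
  unfold womanP
  rw [if_neg (by omega), if_neg (by omega), if_neg (by omega), if_pos rfl]
  simp only [List.mem_cons, Prod.mk.injEq, List.not_mem_nil, or_false]
  omega

theorem wS {m r : ℕ} : (m, r) ∈ prefW (inst N K var sgn) (3 * N + 1) ↔
    (m = 3 * N ∧ r = 1) ∨ (m = 3 * N + 1 ∧ r = 1) ∨ (m < 3 * N ∧ r = 0) := by
  rw [prefW_eq (by omega)]
  unfold womanP
  rw [if_neg (by omega), if_neg (by omega), if_neg (by omega), if_neg (by omega)]
  simp only [List.mem_cons, Prod.mk.injEq, List.mem_map, List.mem_range]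
  constructor
  · rintro (h | h | ⟨o, h, rfl, rfl⟩)
    · exact Or.inl h
    · exact Or.inr (Or.inl h)
    · exact Or.inr (Or.inr ⟨h, rfl⟩)
  · rintro (h | h | ⟨h, rfl⟩)
    · exact Or.inl h
    · exact Or.inr (Or.inl h)
    · exact Or.inr (Or.inr ⟨m, h, rfl, rfl⟩)

end Pool.Agent.H519_MO
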