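import Pool.Agent.H519_MO.Main

/-!
# Satisfying assignments give weakly stable matchings
-/

namespace Pool.Agent.H519_MO

open Pool.Agent.NPC

/-- The partner of the man `m`. -/
def pm (N K : ℕ) (sel : ℕ → ℕ) (τ : ℕ → Bool) (m : ℕ) : ℕ :=
  if m < N then
    if m = sel (m / 3) then (if m / 3 + 1 < K then sel (m / 3 + 1) else 3 * N) else m
  else if m < 2 * N then (if τ (m - N) = true then m else m + N)
  else if m < 3 * N then (if τ (m - 2 * N) = true then m else m - N)
  else if m = 3 * N then sel 0 else 3 * N + 1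

/-- The partner of the woman `w`. -/
def pw (N K : ℕ) (sel : ℕ → ℕ) (τ : ℕ → Bool) (w : ℕ) : ℕ :=
  if w < N then
    if w = sel (w / 3) then (if w / 3 = 0 then 3 * N else sel (w / 3 - 1)) else w
  else if w < 2 * N then (if τ (w - N) = true then w else w + N)
  else if w < 3 * N then (if τ (w - 2 * N) = true then w else w - N)
  else if w = 3 * N then sel (K - 1) else 3 * N + 1

/-- The matching given by a satisfying assignment. -/
def M1 (N K : ℕ) (sel : ℕ → ℕ) (τ : ℕ → Bool) : Set (ℕ × ℕ) :=
  {p | p.1 < 3 * N + 2 ∧ p.2 = pm N K sel τ p.1}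

variable {N K : ℕ} {var : ℕ → ℕ} {sgn : ℕ → Bool} {sel : ℕ → ℕ} {τ : ℕ → Bool}

theorem mem_M1 {m w : ℕ} : (m, w) ∈ M1 N K sel τ ↔ m < 3 * N + 2 ∧ w = pm N K sel τ m := Iff.rfl

theorem pw_pm (hN : N = 3 * K) (hK : 0 < K) (hsel : ∀ j < K, sel j / 3 = j) {m : ℕ}
    (hm : m < 3 * N + 2) : pw N K sel τ (pm N K sel τ m) = m := by
  unfold pm
  by_cases h1 : m < N
  · rw [if_pos h1]
    by_cases h2 : m = sel (m / 3)
    · rw [if_pos h2]
      by_cases h3 : m / 3 + 1 < K
      · rw [if_pos h3]
        have e := hsel _ h3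
        unfold pw
        rw [if_pos (by omega), e, if_pos rfl, if_neg (by omega), Nat.add_sub_cancel]
        exact h2.symm
      · rw [if_neg h3]
        unfold pw
        rw [if_neg (by omega), if_neg (by omega), if_neg (by omega), if_pos rfl]
        have : K - 1 = m / 3 := by omega
        rw [this]
        exact h2.symm
    · rw [if_neg h2]
      unfold pw
      rw [if_pos h1, if_neg h2]
  · rw [if_neg h1]
    by_cases h2 : m < 2 * N
    · rw [if_pos h2]
      by_cases h3 : τ (m - N) = true
      · rw [if_pos h3]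
        unfold pw
        rw [if_neg h1, if_pos h2, if_pos h3]
      · rw [if_neg h3]
        unfold pw
        have e : m + N - 2 * N = m - N := by omega
        rw [if_neg (by omega), if_neg (by omega), if_pos (by omega), e, if_neg h3]
        omega
    · rw [if_neg h2]
      by_cases h4 : m < 3 * N
      · rw [if_pos h4]
        by_cases h3 : τ (m - 2 * N) = true
        · rw [if_pos h3]
          unfold pw
          rw [if_neg h1, if_neg h2, if_pos h4, if_pos h3]
        · rw [if_neg h3]
          unfold pw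
          have e : m - N - N = m - 2 * N := by omega
          rw [if_neg (by omega), if_pos (by omega), e, if_neg h3]
          omega
      · rw [if_neg h4]
        by_cases h5 : m = 3 * N
        · rw [if_pos h5]
          have e := hsel 0 hK
          unfold pw
          rw [if_pos (by omega), e, if_pos rfl, if_pos rfl]
          exact h5.symm
        · rw [if_neg h5]
          unfold pw
          rw [if_neg (by omega), if_neg (by omega), if_neg (by omega), if_neg (by omega)]
          omega

/-- The ranks of the partners in `M1`. -/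
theorem rank_pm (hN : N = 3 * K) (hK : 0 < K) (hsel : ∀ j < K, sel j / 3 = j)
    (hvar : ∀ o < N, var o < N) {m : ℕ} (hm : m < 3 * N + 2) :
    Acceptable (inst N K var sgn) m (pm N K sel τ m) ∧
      ∀ s, (pm N K sel τ m, s) ∈ prefM (inst N K var sgn) m →
        (m < N ∧ m = sel (m / 3) ∧ s = 2) ∨ (m = 3 * N ∧ s = 1) ∨ (m ≠ 3 * N ∧ s = 0) := by
  unfold pm
  by_cases h1 : m < N
  · rw [if_pos h1]
    have hvw : N ≤ vw N var sgn m ∧ vw N var sgn m < 3 * N := by
      have := hvar m h1
      unfold vw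
      split_ifs <;> omega
    by_cases h2 : m = sel (m / 3)
    · rw [if_pos h2]
      by_cases h3 : m / 3 + 1 < K
      · rw [if_pos h3]
        have e := hsel _ h3
        refine ⟨⟨⟨2, (mE h1).2 (Or.inr (Or.inr (Or.inl ⟨Or.inl ⟨h3, e⟩, rfl⟩)))⟩,
          ⟨0, (wE (by omega)).2 (Or.inr (Or.inr ⟨e.symm, rfl⟩))⟩⟩, ?_⟩
        intro s hs
        left
        refine ⟨h1, h2, ?_⟩
        rw [mE h1] at hs
        rcases hs with ⟨h, _⟩ | ⟨h, _⟩ | ⟨_, h⟩ | ⟨h, _⟩
        · rw [h] at e; omega
        · omega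
        · exact h
        · omega
      · rw [if_neg h3]
        refine ⟨⟨⟨2, (mE h1).2 (Or.inr (Or.inr (Or.inl ⟨Or.inr ⟨by omega, rfl⟩, rfl⟩)))⟩,
          ⟨0, (wZ (by omega)).2 ⟨h1, by omega, rfl⟩⟩⟩, ?_⟩
        intro s hs
        left
        refine ⟨h1, h2, ?_⟩
        rw [mE h1] at hs
        rcases hs with ⟨h, _⟩ | ⟨h, _⟩ | ⟨_, h⟩ | ⟨h, _⟩
        · omega
        · omega
        · exact h
        · omega
    · rw [if_neg h2]
      refine ⟨acc_self (by omega), fun s hs => ?_⟩
      right; right
      exact ⟨by omega, top_self hN (by omega) hs⟩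
  · rw [if_neg h1]
    by_cases h2 : m < 2 * N
    · rw [if_pos h2]
      by_cases h3 : τ (m - N) = true
      · rw [if_pos h3]
        refine ⟨acc_self (by omega), fun s hs => ?_⟩
        right; right
        exact ⟨by omega, top_self hN (by omega) hs⟩
      · rw [if_neg h3]
        refine ⟨⟨⟨0, (mY (by omega) h2).2 (Or.inr (Or.inl ⟨rfl, rfl⟩))⟩,
          ⟨0, (wB (by omega) (by omega)).2 (Or.inl ⟨by omega, rfl⟩)⟩⟩, fun s hs => ?_⟩
        rw [mY (by omega) h2] at hs
        omega
    · rw [if_neg h2]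
      by_cases h4 : m < 3 * N
      · rw [if_pos h4]
        by_cases h3 : τ (m - 2 * N) = true
        · rw [if_pos h3]
          refine ⟨acc_self (by omega), fun s hs => ?_⟩
          right; right
          exact ⟨by omega, top_self hN (by omega) hs⟩
        · rw [if_neg h3]
          refine ⟨⟨⟨0, (mQ (by omega) h4).2 (Or.inl ⟨rfl, rfl⟩)⟩,
            ⟨2, (wA (by omega) (by omega)).2 (Or.inr (Or.inl ⟨by omega, rfl⟩))⟩⟩, fun s hs => ?_⟩
          rw [mQ (by omega) h4] at hs
          omega
      · rw [if_neg h4]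
        by_cases h5 : m = 3 * N
        · rw [if_pos h5]
          subst h5
          have e := hsel 0 hK
          refine ⟨⟨⟨1, mA.2 (Or.inr ⟨by omega, rfl⟩)⟩,
            ⟨0, (wE (by omega)).2 (Or.inr (Or.inl ⟨by omega, rfl, rfl⟩))⟩⟩, fun s hs => ?_⟩
          rw [mA] at hs
          omega
        · rw [if_neg h5]
          have : m = 3 * N + 1 := by omega
          subst this
          refine ⟨⟨⟨0, mB.2 ⟨rfl, rfl⟩⟩, ⟨1, wS.2 (Or.inr (Or.inl ⟨rfl, rfl⟩))⟩⟩, fun s hs => ?_⟩
          rw [mB] at hs
          omega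

theorem weaklyStable_M1 (hN : N = 3 * K) (hK : 0 < K) (hsel : ∀ j < K, sel j / 3 = j)
    (hvar : ∀ o < N, var o < N) (hsat : ∀ j < K, τ (var (sel j)) = sgn (sel j)) :
    WeaklyStable (inst N K var sgn) (M1 N K sel τ) := by
  refine ⟨⟨?_, ?_, ?_⟩, ?_⟩
  · intro m w h
    obtain ⟨h1, rfl⟩ := mem_M1.1 h
    exact (rank_pm hN hK hsel hvar h1).1
  · intro m w w' h h'
    obtain ⟨h1, rfl⟩ := mem_M1.1 h
    obtain ⟨h2, rfl⟩ := mem_M1.1 h'
    rfl
  · intro m m' w h h'
    obtain ⟨h1, h2⟩ := mem_M1.1 h
    obtain ⟨h3, h4⟩ := mem_M1.1 h'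
    rw [← pw_pm (τ := τ) hN hK hsel h1, ← pw_pm (τ := τ) hN hK hsel h3, ← h2, ← h4]
  · rintro m w ⟨hacc, _, hb1, hb2⟩
    have hm := man_lt hacc.1
    obtain ⟨r, s, hr, hs, hrs⟩ := hb1 _ (mem_M1.2 ⟨hm, rfl⟩)
    rcases (rank_pm hN hK hsel hvar hm).2 s hs with ⟨h1, h2, rfl⟩ | ⟨rfl, rfl⟩ | ⟨_, rfl⟩
    · -- a displaced literal man
      rw [mE h1] at hr
      have hj : m / 3 < K := by omega
      rcases hr with ⟨rfl, _⟩ | ⟨h3, _⟩ | ⟨_, h3⟩ | ⟨_, h3⟩
      · -- the woman `w = m`
        have hp : ∃ p, (p, w) ∈ M1 N K sel τ ∧ (p, 0) ∈ prefW (inst N K var sgn) w := by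
          by_cases h0 : w / 3 = 0
          · refine ⟨3 * N, mem_M1.2 ⟨by omega, ?_⟩, (wE h1).2 (Or.inr (Or.inl ⟨h0, rfl, rfl⟩))⟩
            unfold pm
            rw [if_neg (by omega), if_neg (by omega), if_neg (by omega), if_pos rfl, ← h0]
            exact h2
          · have e := hsel (w / 3 - 1) (by omega)
            refine ⟨sel (w / 3 - 1), mem_M1.2 ⟨by omega, ?_⟩,
              (wE h1).2 (Or.inr (Or.inr ⟨by omega, rfl⟩))⟩
            unfold pm
            have e2 : w / 3 - 1 + 1 = w / 3 := by omega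
            rw [if_pos (by omega), e, if_pos rfl, e2, if_pos hj]
            exact h2
        obtain ⟨p, hp1, hp2⟩ := hp
        obtain ⟨r', s', hr', hs', hrs'⟩ := hb2 p hp1
        rw [wE h1] at hs' hr' hp2
        omega
      · -- the variable woman
        have hx := hvar m h1
        have hst := hsat _ hj
        rw [← h2] at hst
        cases hsg : sgn m with
        | true =>
          have hw : w = N + var m := by rw [h3]; simp [vw, hsg]
          rw [hsg] at hst
          have hin : (N + var m, w) ∈ M1 N K sel τ := by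
            refine mem_M1.2 ⟨by omega, ?_⟩
            unfold pm
            have e : N + var m - N = var m := by omega
            rw [if_neg (by omega), if_pos (by omega), e, if_pos hst, hw]
          obtain ⟨r', s', hr', hs', hrs'⟩ := hb2 _ hin
          rw [wA (by omega) (by omega)] at hs'
          omega
        | false =>
          have hw : w = 2 * N + var m := by rw [h3]; simp [vw, hsg]
          rw [hsg] at hst
          have hin : (N + var m, w) ∈ M1 N K sel τ := by
            refine mem_M1.2 ⟨by omega, ?_⟩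
            unfold pm
            have e : N + var m - N = var m := by omega
            rw [if_neg (by omega), if_pos (by omega), e, if_neg (by rw [hst]; simp), hw]
            omega
          obtain ⟨r', s', hr', hs', hrs'⟩ := hb2 _ hin
          rw [wB (by omega) (by omega)] at hs'
          omega
      · omega
      · omega
    · -- the man `3 N`
      rw [mA] at hr
      have hw : w = 3 * N + 1 := by omega
      subst hw
      have hin : (3 * N + 1, 3 * N + 1) ∈ M1 N K sel τ := by
        refine mem_M1.2 ⟨by omega, ?_⟩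
        unfold pm
        rw [if_neg (by omega), if_neg (by omega), if_neg (by omega), if_neg (by omega)]
      obtain ⟨r', s', hr', hs', hrs'⟩ := hb2 _ hin
      rw [wS] at hr' hs'
      omega
    · omega

/-- **Correctness of the reduction**: there is a man-optimal weakly stable matching if and only if
the formula is not satisfiable. -/
theorem manOptimal_iff (hN : N = 3 * K) (hK : 0 < K) (hvar : ∀ o < N, var o < N) :
    (∃ M, ManOptimal (inst N K var sgn) M) ↔
      ¬ ∃ τ : ℕ → Bool, ∀ j < K, ∃ r < 3, τ (var (3 * j + r)) = sgn (3 * j + r) := by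
  constructor
  · rintro ⟨M, hM, hopt⟩ ⟨τ, hτ⟩
    choose! r hr3 hr using hτ
    have h0 := weaklyStable_M0 (var := var) (sgn := sgn) hN hK
    have h1 : WeaklyStable (inst N K var sgn) (M1 N K (fun j => 3 * j + r j) τ) :=
      weaklyStable_M1 hN hK (fun j hj => by have := hr3 j hj; omega) hvar hr
    obtain ⟨w, hw, hwp⟩ := hopt _ h0 (3 * N) (3 * N + 1) (mem_M0.2 (Or.inr ⟨rfl, rfl⟩))
    obtain ⟨u, hu, _⟩ := hopt _ h1 (3 * N + 1) (3 * N + 1) (mem_M1.2 ⟨by omega, by
      unfold pm
      rw [if_neg (by omega), if_neg (by omega), if_neg (by omega), if_neg (by omega)]⟩)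
    obtain ⟨s, hs⟩ := (hM.1.acc hw).1
    obtain ⟨t, ht⟩ := (hM.1.acc hu).1
    have hs' := hs
    rw [mA] at hs
    rw [mB] at ht
    have hu' : u = 3 * N + 1 := ht.1
    subst hu'
    have hw' : w = 3 * N + 1 := by
      rcases hs with ⟨h, _⟩ | ⟨h, h2⟩
      · exact h
      · exact absurd ⟨0, s, mA.2 (Or.inl ⟨rfl, rfl⟩), hs', by omega⟩ hwp
    subst hw'
    have := hM.1.woman hw hu
    omega
  · intro hun
    refine ⟨M0 N, weaklyStable_M0 hN hK, fun M' hM' m w' hm => ?_⟩
    have hlt := man_lt (hM'.1.acc hm).1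
    by_cases h1 : m < 3 * N
    · refine ⟨m, mem_M0.2 (Or.inl ⟨h1, rfl⟩), ?_⟩
      rintro ⟨r, s, _, hs, hrs⟩
      have := top_self hN h1 hs
      omega
    · by_cases h2 : m = 3 * N
      · subst h2
        refine ⟨3 * N + 1, mem_M0.2 (Or.inr ⟨rfl, rfl⟩), ?_⟩
        rintro ⟨r, s, _, hs, hrs⟩
        rw [mA] at hs
        omega
      · have h3 : m = 3 * N + 1 := by omega
        subst h3
        obtain ⟨t, ht⟩ := (hM'.1.acc hm).1
        rw [mB] at ht
        rw [ht.1] at hm
        exact absurd (sat_of hM' hm hvar hN) hun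

end Pool.Agent.H519_MO
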